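import Pool.Agent.X248.OP.Main

/-!
# Recognising graphs whose maximal open packings have equal size is coNP-complete

Let `φ` be a formula with variables `x_1, ..., x_n`. The graph is the incidence graph of the
following hypergraph: the points are `w`, the clauses, the literals and `z_1, ..., z_n`; the
hyperedges are the set of `w` and all clauses, the sets `{ℓ, w} ∪ {c : ℓ ∈ c}` for the literals `ℓ`,
the sets `{x_i, ¬x_i, z_i}` and the sets `{z_i}`. The points form `n + 1` slots, `{w} ∪ {clauses}`
and `{x_i, ¬x_i, z_i}`, and so do the hyperedges, and two vertices in a slot have a common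
neighbour. A maximal open packing contains a vertex of every slot, with the possible exception of
`{w} ∪ {clauses}`; if it has no vertex there, then the literals in it satisfy all clauses.
-/

set_option autoImplicit false

namespace Pool.Agent.Results.MP_563097_lc.OpenPackingsCoNP

open Pool.Agent.NPC Pool.Agent.H622R2 Pool.Agent.X248 Pool.Agent.X248.OP

/-- **Recognising the graphs all of whose maximal open packings have the same size is
coNP-complete**, even for bipartite graphs. Hence it can be done in polynomial time if and only if
`P = NP`. -/
theorem result :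
    (InCoNPP (fun M : List (List Bool) => EqualPackings (matGraph M)) ∧
      CoNPHardP (fun M : List (List Bool) => EqualPackings (matGraph M))) ∧
    (∀ L : Set (List Bool), InCoNP L → ∃ f : List Bool → List (List Bool),
      PolyTime (fun x => bits (f x)) ∧ ∀ x, (matGraph (f x)).IsBipartite ∧
        (x ∈ L ↔ EqualPackings (matGraph (f x)))) ∧
    (InPP (fun M : List (List Bool) => EqualPackings (matGraph M)) ↔
      ∀ L : Set (List Bool), InNP L → InP L) := by
  have h2 : CoNPHardP (fun M : List (List Bool) => EqualPackings (matGraph M)) :=
    hardPr_op.toCoNPHardP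
  refine ⟨⟨inCoNP, h2⟩, fun L hL => ?_, coNP_inP_iff inCoNP h2⟩
  obtain ⟨f, hf, hp, hfL⟩ := hardPr_op Lᶜ hL
  refine ⟨f, PC.toPolyTime hf, fun x => ⟨hp x, ?_⟩⟩
  have := hfL x
  rw [Set.mem_compl_iff] at this
  exact not_iff_not.1 this

end Pool.Agent.Results.MP_563097_lc.OpenPackingsCoNP
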